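import Pool.Agent.H408Z.Tri.Enc

/-!
# The enumeration of the unused permutations and the automorphisms of the structure
-/

set_option autoImplicit false

namespace Pool.Agent.H408Z.Tri

open Equiv

/-- The finitary permutations that are not codes of three element sets other than blocks. -/
def Un (σ : Perm AA) : Prop := Fy σ ∧ ¬ ∃ t, Used σ t

theorem un_conj (κ : Perm ℕ) (π : ℕ → Perm (Fin 3)) (σ : Perm AA) :
    Un (bp κ π * σ * (bp κ π)⁻¹) ↔ Un σ := by
  refine and_congr ⟨fun h => ?_, fun h => h.conj _⟩ (not_congr ⟨?_, ?_⟩)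
  · have := h.conj (bp κ π)⁻¹
    simpa [mul_assoc] using this
  · rintro ⟨t, ht⟩
    refine ⟨t.map (bp κ π).symm.toEmbedding, (used_conj κ π _ _).1 ?_⟩
    convert ht
    simp [Finset.map_map]
  · rintro ⟨t, ht⟩
    exact ⟨_, (used_conj κ π _ _).2 ht⟩

/-- `σ` moves only points of blocks below `k` (and possibly the base point). -/
def Low (k : ℕ) (σ : Perm AA) : Prop := ∀ j i, σ (some (j, i)) ≠ some (j, i) → j < k

theorem exists_low {σ : Perm AA} (h : Fy σ) : ∃ k, Low k σ := by
  obtain ⟨k, hk⟩ := (h.image fun x : AA => (x.map Prod.fst).getD 0).bddAbove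
  exact ⟨k + 1, fun j i hx => Nat.lt_succ_of_le (hk ⟨_, hx, rfl⟩)⟩

/-- The rotation of block `k - 1`. -/
def rot (k : ℕ) : Perm AA := bp 1 fun j => if j + 1 = k then Equiv.addRight 1 else 1

theorem rot_fix (k j : ℕ) (i : Fin 3) : rot k (some (j, i)) = some (j, i) ↔ j + 1 ≠ k := by
  have h : ∀ i : Fin 3, i + 1 ≠ i := by decide
  by_cases h1 : j + 1 = k <;> simp [rot, h1, h]

theorem rot_un (k : ℕ) : Un (rot k) := by
  refine ⟨?_, ?_⟩
  · refine ((((Set.finite_singleton (k - 1)).prod (Set.finite_univ (α := Fin 3))).image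
      some)).subset ?_
    rintro (_ | ⟨j, i⟩) hx
    · exact absurd rfl hx
    · have h1 : ¬ (j + 1 ≠ k) := fun h => hx ((rot_fix k j i).2 h)
      exact ⟨(j, i), ⟨show j = k - 1 by omega, trivial⟩, rfl⟩
  · rintro ⟨t, ht⟩
    obtain ⟨j, i, h⟩ := ht.exists_mem
    obtain ⟨h1, i', h2⟩ := (ht.dec j i).1 h
    exact h2 ((rot_fix k j i').2 ((rot_fix k j i).1 h1))

theorem exists_enum : ∃ e : ℕ ≃ {σ // Un σ}, ∀ k, Low k (e k).1 := by
  have : Countable {σ // Un σ} :=
    Function.Injective.countable (f := fun σ : {σ // Un σ} => (⟨σ.1, σ.2.1⟩ : {σ // Fy σ}))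
      fun σ τ h => Subtype.ext (congrArg (fun x : {σ : Perm AA // Fy σ} => x.1) h)
  obtain ⟨c, hc⟩ := exists_injective_nat {σ // Un σ}
  choose l hl using fun σ : {σ // Un σ} => exists_low σ.2.1
  obtain ⟨h, h1, h2⟩ := Function.Embedding.schroeder_bernstein_of_rel
    (f := fun k => (⟨rot k, rot_un k⟩ : {σ // Un σ})) (g := fun σ => Nat.pair (c σ) (l σ))
    (fun k k' h => by
      have h1 : rot k = rot k' := congrArg Subtype.val h
      have h2 := rot_fix k (k - 1) 0
      have h3 := rot_fix k' (k - 1) 0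
      have h4 := rot_fix k (k' - 1) 0
      have h5 := rot_fix k' (k' - 1) 0
      rw [h1] at h2 h4
      have h6 := h2.symm.trans h3
      have h7 := h4.symm.trans h5
      omega)
    (fun σ τ h => hc (Nat.pair_eq_pair.1 h).1) (fun k σ => Low k σ.1)
    (fun k j i h => by
      have h1 : ¬ (j + 1 ≠ k) := fun h2 => h ((rot_fix k j i).2 h2)
      omega)
    (fun σ j i h => (hl σ j i h).trans_le (Nat.right_le_pair _ _))
  exact ⟨Equiv.ofBijective h h1, h2⟩

section

variable (e : ℕ ≃ {σ // Un σ}) (π : ℕ → Perm (Fin 3))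

/-- The index of the conjugate of the `n`-th unused permutation. -/
def nxt (κ : Perm ℕ) (n : ℕ) : ℕ :=
  e.symm ⟨bp κ π * (e n).1 * (bp κ π)⁻¹, (un_conj κ π _).2 (e n).2⟩

theorem nxt_spec (κ : Perm ℕ) (n : ℕ) :
    (e (nxt e π κ n)).1 = bp κ π * (e n).1 * (bp κ π)⁻¹ := by
  simp [nxt]

theorem nxt_inj (κ : Perm ℕ) {n m : ℕ} (h : nxt e π κ n = nxt e π κ m) : n = m := by
  have h1 := nxt_spec e π κ n
  rw [h, nxt_spec] at h1
  exact (e.injective (Subtype.ext (mul_left_cancel (mul_right_cancel h1)))).symm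

variable {e}

theorem nxt_congr (he : ∀ k, Low k (e k).1) {κ κ' : Perm ℕ} {n : ℕ} (h : ∀ j < n, κ j = κ' j) :
    nxt e π κ n = nxt e π κ' n := by
  apply e.injective
  apply Subtype.ext
  rw [nxt_spec, nxt_spec]
  refine conj_congr ?_
  rintro (_ | ⟨j, i⟩) hx
  · rfl
  · rw [bp_some, bp_some, h j (he n j i hx)]

variable (e)

/-- The approximations of the permutation of the blocks. -/
def sq : ℕ → Perm ℕ
  | 0 => 1
  | n + 1 => swap (nxt e π (sq n) n) (sq n n) * sq n

variable {e}

theorem sq_spec (he : ∀ k, Low k (e k).1) (n : ℕ) :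
    ∀ j < n, sq e π n j = nxt e π (sq e π n) j := by
  induction n with
  | zero => intro j hj; omega
  | succ n ih =>
    have h1 : ∀ j < n, sq e π (n + 1) j = sq e π n j := fun j hj => by
      simp only [sq, Perm.coe_mul, Function.comp_apply]
      refine swap_apply_of_ne_of_ne (fun h => ?_) fun h => ?_
      · rw [ih j hj] at h
        have := nxt_inj e π _ h
        omega
      · have := (sq e π n).injective h
        omega
    intro j hj
    rw [nxt_congr π he (κ' := sq e π n) fun i hi => h1 i (by omega)]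
    rcases Nat.lt_succ_iff_lt_or_eq.1 hj with h | rfl
    · rw [h1 j h, ih j h]
    · simp [sq]

theorem sq_succ (he : ∀ k, Low k (e k).1) {n j : ℕ} (hj : j < n) :
    sq e π (n + 1) j = sq e π n j := by
  simp only [sq, Perm.coe_mul, Function.comp_apply]
  refine swap_apply_of_ne_of_ne (fun h => ?_) fun h => ?_
  · rw [sq_spec π he n j hj] at h
    have := nxt_inj e π _ h
    omega
  · have := (sq e π n).injective h
    omega

theorem sq_stab (he : ∀ k, Low k (e k).1) {n j : ℕ} (hj : j < n) :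
    sq e π n j = sq e π (j + 1) j := by
  induction n, (show j + 1 ≤ n from hj) using Nat.le_induction with
  | base => rfl
  | succ n hn ih => rw [sq_succ π he hn, ih hn]

theorem exists_kappa (he : ∀ k, Low k (e k).1) :
    ∃ κ : Perm ℕ, ∀ j, (e (κ j)).1 = bp κ π * (e j).1 * (bp κ π)⁻¹ := by
  let k : ℕ → ℕ := fun j => sq e π (j + 1) j
  have hk : ∀ n j, j < n → sq e π n j = k j := fun n j h => sq_stab π he h
  have h1 : Function.Injective k := fun a b h => by
    rw [← hk (a + b + 1) a (by omega), ← hk (a + b + 1) b (by omega)] at h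
    exact (sq e π _).injective h
  have h2 : Function.Surjective k := by
    intro m
    induction m using Nat.strong_induction_on with
    | _ m ih =>
      have h3 : ∃ n, ∀ m' < m, ∃ j < n, k j = m' := by
        choose! f hf using ih
        obtain ⟨n, hn⟩ := ((Set.finite_lt_nat m).image f).bddAbove
        exact ⟨n + 1, fun m' h => ⟨f m', Nat.lt_succ_of_le (hn ⟨m', h, rfl⟩), hf m' h⟩⟩
      obtain ⟨n, hn⟩ := h3
      have h4 : Un ((bp (sq e π n) π)⁻¹ * (e m).1 * bp (sq e π n) π) := by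
        rw [← un_conj (sq e π n) π]
        simpa [mul_assoc] using (e m).2
      obtain ⟨j, hj⟩ := e.surjective ⟨_, h4⟩
      have h5 : (e j).1 = (bp (sq e π n) π)⁻¹ * (e m).1 * bp (sq e π n) π := by rw [hj]
      refine ⟨j, e.injective (Subtype.ext ?_)⟩
      rw [← hk (n + j + 1) j (by omega), sq_spec π he _ j (by omega), nxt_spec,
        conj_congr (ρ' := bp (sq e π n) π), h5]
      · simp [mul_assoc]
      · rintro (_ | ⟨a, i⟩) hx
        · rfl
        · have h6 : sq e π n a < m := by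
            refine he m _ (π a i) fun h => hx ?_
            rw [h5]
            simp only [Perm.coe_mul, Function.comp_apply, bp_some, h]
            rw [← bp_some]
            exact (bp (sq e π n) π).symm_apply_apply _
          obtain ⟨j', h7, h8⟩ := hn _ h6
          rw [← hk n j' h7] at h8
          have h9 : j' = a := (sq e π n).injective h8
          subst h9
          rw [bp_some, bp_some, hk n j' h7, hk _ j' (by omega)]
  refine ⟨Equiv.ofBijective k ⟨h1, h2⟩, fun j => ?_⟩
  rw [← nxt_spec, nxt_congr π he (κ' := sq e π (j + 1)) fun i hi => (hk _ i (by omega)).symm,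
    ← sq_spec π he (j + 1) j (by omega)]
  rfl

theorem kappa_fix (he : ∀ k, Low k (e k).1) {κ : Perm ℕ}
    (h : ∀ j, (e (κ j)).1 = bp κ π * (e j).1 * (bp κ π)⁻¹) {k : ℕ} (hπ : ∀ j < k, π j = 1) :
    ∀ j ≤ k, κ j = j := by
  intro j
  induction j using Nat.strong_induction_on with
  | _ j ih =>
    intro hj
    refine e.injective (Subtype.ext ?_)
    rw [h, conj_congr (ρ' := 1)]
    · simp
    · rintro (_ | ⟨a, i⟩) hx
      · rfl
      · have h1 := he j a i hx
        rw [bp_some, ih a h1 (by omega), hπ a (by omega)]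
        rfl

end

/-- The block with index `k`. -/
def blk (k : ℕ) : Finset AA := Finset.univ.map ⟨fun i => some (k, i), fun a b h => by simpa using h⟩

theorem mem_blk {k : ℕ} {x : AA} : x ∈ blk k ↔ ∃ i, x = some (k, i) := by
  simp [blk, eq_comm]

theorem blk_card (k : ℕ) : (blk k).card = 3 := by simp [blk]

theorem blk_map (κ : Perm ℕ) (π : ℕ → Perm (Fin 3)) (k : ℕ) :
    (blk k).map (bp κ π).toEmbedding = blk (κ k) := by
  ext y
  obtain ⟨x, rfl⟩ := (bp κ π).surjective y
  refine (Finset.mem_map' _).trans ?_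
  rw [mem_blk, mem_blk]
  refine Iff.trans ?_ (π k).surjective.exists.symm
  refine exists_congr fun i => ?_
  rw [← bp_some]
  exact (bp κ π).injective.eq_iff.symm

/-- The group of the permutations that preserve a relation. -/
def Aut {A : Type} (R : Perm A → Finset A → Prop) : Subgroup (Perm A) where
  carrier := {ρ | ∀ σ t, R (ρ * σ * ρ⁻¹) (t.map ρ.toEmbedding) ↔ R σ t}
  one_mem' := fun σ t => by
    have : t.map (1 : Perm A).toEmbedding = t := Finset.map_refl
    simp [this]
  mul_mem' := fun {ρ τ} h h' σ t => by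
    rw [← h' σ t, ← h (τ * σ * τ⁻¹), Finset.map_map]
    simp only [mul_inv_rev, mul_assoc]
    rfl
  inv_mem' := fun {ρ} h σ t => by
    rw [← h, Finset.map_map]
    have : (ρ⁻¹).toEmbedding.trans ρ.toEmbedding = Function.Embedding.refl A := by
      ext x
      simp
    rw [this, Finset.map_refl]
    simp [mul_assoc]

theorem core : ∃ R : Perm AA → Finset AA → Prop,
    (∀ σ t, R σ t → Fy σ ∧ t.card = 3) ∧ (∀ σ, Fy σ → ∃! t, R σ t) ∧
    (∀ t : Finset AA, t.card = 3 → ∃! σ, R σ t) ∧
    ∀ (E : Finset AA) (σ : Perm AA),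
      (∀ ρ ∈ Aut R, (∀ a ∈ E, ρ a = a) → ∀ x, σ (ρ x) = ρ (σ x)) → Fy σ := by
  obtain ⟨e, he⟩ := exists_enum
  have hb : ∀ σ k, ¬ Used σ (blk k) := fun σ k h => by
    obtain ⟨i, hi⟩ := h.2.1 k
    exact hi (mem_blk.2 ⟨i, rfl⟩)
  have hbi : ∀ k k', blk k = blk k' → k = k' := fun k k' h => by
    have h1 : some (k, 0) ∈ blk k := mem_blk.2 ⟨0, rfl⟩
    rw [h, mem_blk] at h1
    obtain ⟨i, hi⟩ := h1
    simpa using congrArg (Option.map Prod.fst) hi
  refine ⟨fun σ t => Used σ t ∨ ∃ k, σ = (e k).1 ∧ t = blk k, ?_, ?_, ?_, ?_⟩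
  · rintro σ t (h | ⟨k, rfl, rfl⟩)
    · exact ⟨h.fy, h.1⟩
    · exact ⟨(e k).2.1, blk_card k⟩
  · intro σ hσ
    by_cases h : ∃ t, Used σ t
    · obtain ⟨t, ht⟩ := h
      refine ⟨t, Or.inl ht, ?_⟩
      rintro t' (h1 | ⟨k, rfl, rfl⟩)
      · exact h1.right_unique ht
      · exact absurd ⟨t, ht⟩ (e k).2.2
    · obtain ⟨k, hk⟩ := e.surjective ⟨σ, hσ, h⟩
      refine ⟨blk k, Or.inr ⟨k, by rw [hk], rfl⟩, ?_⟩
      rintro t' (h1 | ⟨k', h1, rfl⟩)
      · exact absurd ⟨t', h1⟩ h
      · rw [e.injective (a₁ := k) (a₂ := k') (Subtype.ext (by rw [hk, ← h1]))]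
  · intro t ht
    by_cases h : ∀ j, ∃ i, some (j, i) ∉ t
    · obtain ⟨σ, hσ⟩ := exists_used ht h
      refine ⟨σ, Or.inl hσ, ?_⟩
      rintro σ' (h1 | ⟨k, rfl, rfl⟩)
      · exact h1.left_unique hσ
      · exact absurd hσ (hb _ _)
    · push Not at h
      obtain ⟨j, hj⟩ := h
      have h1 : t = blk j := by
        refine (Finset.eq_of_subset_of_card_le (fun x hx => ?_) ?_).symm
        · obtain ⟨i, rfl⟩ := mem_blk.1 hx
          exact hj i
        · rw [ht, blk_card]
      subst h1
      refine ⟨(e j).1, Or.inr ⟨j, rfl, rfl⟩, ?_⟩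
      rintro σ' (h1 | ⟨k, rfl, h1⟩)
      · exact absurd h1 (hb _ _)
      · rw [hbi _ _ h1]
  · intro E σ hσ
    obtain ⟨n, hn⟩ := (E.finite_toSet.image fun x : AA => (x.map Prod.fst).getD 0).bddAbove
    have key : ∀ k, n < k → ∀ p : Perm (Fin 3), ∃ ρ : Perm AA, (∀ x, σ (ρ x) = ρ (σ x)) ∧
        ρ none = none ∧ (∀ j < k, ∀ i, ρ (some (j, i)) = some (j, i)) ∧
        ∀ i, ρ (some (k, i)) = some (k, p i) := by
      intro k hk p
      let π : ℕ → Perm (Fin 3) := fun j => if j = k then p else 1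
      have hπ : ∀ j < k, π j = 1 := fun j hj => if_neg hj.ne
      obtain ⟨κ, hκ⟩ := exists_kappa π he
      have h1 := kappa_fix π he hκ hπ
      have h2 : ∀ j < k, ∀ i, bp κ π (some (j, i)) = some (j, i) := fun j hj i => by
        rw [bp_some, h1 j hj.le, hπ j hj]
        rfl
      refine ⟨bp κ π, hσ _ (fun τ t => or_congr (used_conj _ _ _ _) ?_) ?_, rfl, h2, fun i => ?_⟩
      · rw [κ.surjective.exists]
        refine exists_congr fun j => and_congr ?_ ?_
        · rw [hκ, mul_left_inj, mul_right_inj]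
        · rw [← blk_map κ π, (Finset.map_injective _).eq_iff]
      · rintro (_ | ⟨j, i⟩) ha
        · rfl
        · exact h2 j (lt_of_le_of_lt (hn ⟨_, ha, rfl⟩) hk) i
      · rw [bp_some, h1 k le_rfl]
        simp [π]
    have h3 : ∀ i : Fin 3, swap i (i + 1) i ≠ i := by decide
    have h4 : ∀ i i' : Fin 3, i ≠ i' → ∃ p : Perm (Fin 3), p i = i ∧ p i' ≠ i' := by decide
    refine ((((Set.finite_le_nat n).prod (Set.finite_univ (α := Fin 3))).image some).insert
      none).subset ?_
    rintro (_ | ⟨k, i⟩) hx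
    · exact Or.inl rfl
    refine Or.inr ⟨(k, i), ⟨?_, trivial⟩, rfl⟩
    by_contra hk
    have hk' : n < k := not_le.1 hk
    rcases h5 : σ (some (k, i)) with _ | ⟨j, i'⟩
    · obtain ⟨ρ, a1, a2, a3, a4⟩ := key k hk' (swap i (i + 1))
      have := a1 (some (k, i))
      rw [h5, a2, ← h5, a4] at this
      exact h3 i (by simpa using σ.injective this)
    · rcases lt_trichotomy j k with h | rfl | h
      · obtain ⟨ρ, a1, a2, a3, a4⟩ := key k hk' (swap i (i + 1))
        have := a1 (some (k, i))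
        rw [h5, a3 j h, ← h5, a4] at this
        exact h3 i (by simpa using σ.injective this)
      · obtain ⟨p, b1, b2⟩ := h4 i i' (by
          rintro rfl
          exact hx h5)
        obtain ⟨ρ, a1, a2, a3, a4⟩ := key j hk' p
        have := a1 (some (j, i))
        rw [a4, b1, h5, a4] at this
        exact b2 (by simpa using this.symm)
      · obtain ⟨ρ, a1, a2, a3, a4⟩ := key j (hk'.trans h) (swap i' (i' + 1))
        have := a1 (some (k, i))
        rw [a3 k h, h5, a4] at this
        exact h3 i' (by simpa using this.symm)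

end Pool.Agent.H408Z.Tri
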