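import Mathlib

/-!
# Coding three element sets by finitary permutations on a set cut into blocks of three
-/

set_option autoImplicit false

namespace Pool.Agent.H408Z.Tri

open Equiv

/-- The atoms: a base point and countably many blocks of three points. -/
abbrev AA : Type := Option (ℕ × Fin 3)

/-- A permutation is finitary if it moves finitely many points. -/
def Fy {A : Type} (σ : Perm A) : Prop := {x | σ x ≠ x}.Finite

theorem Fy.conj {A : Type} {σ : Perm A} (h : Fy σ) (ρ : Perm A) : Fy (ρ * σ * ρ⁻¹) := by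
  refine (h.image ρ).subset fun y hy => ⟨ρ⁻¹ y, fun h1 => hy ?_, by simp⟩
  simp only [Perm.coe_mul, Function.comp_apply]
  rw [h1]
  simp

theorem conj_congr {A : Type} {σ ρ ρ' : Perm A} (h : ∀ x, σ x ≠ x → ρ x = ρ' x) :
    ρ * σ * ρ⁻¹ = ρ' * σ * ρ'⁻¹ := by
  ext y
  obtain ⟨x, rfl⟩ := ρ.surjective y
  simp only [Perm.coe_mul, Function.comp_apply, Perm.coe_inv, symm_apply_apply]
  by_cases h1 : σ x = x
  · rw [h1]
    obtain ⟨x', h2⟩ := ρ'.surjective (ρ x)
    rw [← h2, symm_apply_apply]
    by_cases h3 : σ x' = x'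
    · rw [h3]
    · have h4 : x' = x := ρ.injective ((h x' h3).trans h2)
      rw [h4] at h3
      exact absurd h1 h3
  · rw [h x h1, symm_apply_apply]
    exact h _ fun h2 => h1 (σ.injective h2)

instance fyCountable {A : Type} [Countable A] : Countable {σ : Perm A // Fy σ} := by
  classical
  refine Function.Injective.countable
    (f := fun σ : {σ : Perm A // Fy σ} => σ.2.toFinset.image fun x => (x, σ.1 x)) ?_
  have key : ∀ σ τ : {σ : Perm A // Fy σ}, (σ.2.toFinset.image fun x => (x, σ.1 x)) =
      (τ.2.toFinset.image fun x => (x, τ.1 x)) → ∀ x, σ.1 x ≠ x → σ.1 x = τ.1 x := by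
    intro σ τ h x hx
    have h1 : (x, σ.1 x) ∈ σ.2.toFinset.image fun x => (x, σ.1 x) :=
      Finset.mem_image.2 ⟨x, by simpa using hx, rfl⟩
    rw [h] at h1
    obtain ⟨y, -, h2⟩ := Finset.mem_image.1 h1
    obtain ⟨rfl, h3⟩ := Prod.mk.inj h2
    exact h3.symm
  intro σ τ h
  refine Subtype.ext (Equiv.ext fun x => ?_)
  by_cases h1 : σ.1 x = x
  · by_cases h2 : τ.1 x = x
    · rw [h1, h2]
    · exact (key τ σ h.symm x h2).symm
  · exact key σ τ h x h1

/-- The local rule in a block with membership pattern `p`. -/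
def g (p : Fin 3 → Bool) (i : Fin 3) : Option (Fin 3) :=
  if p i then some i else if p (i + 1) && p (i + 2) then none
  else if p (i + 1) then some (i + 2) else if p (i + 2) then some (i + 1) else some i

theorem g_equiv : ∀ (π : Perm (Fin 3)) (p : Fin 3 → Bool) (i : Fin 3),
    g (fun i => p (π.symm i)) (π i) = (g p i).map π := by decide

theorem g_inv : ∀ (p : Fin 3 → Bool) (i i' : Fin 3), g p i = some i' → g p i' = some i := by decide

theorem g_none : ∀ (p : Fin 3 → Bool) (i : Fin 3), g p i = none →
    p (i + 1) = true ∧ p (i + 2) = true := by decide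

theorem g_none_uniq : ∀ (p : Fin 3 → Bool) (i i' : Fin 3), g p i = none → g p i' = none →
    i = i' := by decide

theorem g_dec : ∀ (p : Fin 3 → Bool) (i : Fin 3), (∃ i, p i = false) →
    (p i = true ↔ g p i = some i ∧ ∃ i', g p i' ≠ some i') := by decide

theorem g_empty : ∀ (p : Fin 3 → Bool) (i : Fin 3), (∀ i, p i = false) → g p i = some i := by
  decide

/-- The membership pattern of `t` in block `j`. -/
def pat (t : Finset AA) (j : ℕ) (i : Fin 3) : Bool := decide (some (j, i) ∈ t)

/-- `σ` is the code of the three element set `t`, which is not a block. -/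
def Used (σ : Perm AA) (t : Finset AA) : Prop :=
  t.card = 3 ∧ (∀ j, ∃ i, some (j, i) ∉ t) ∧
    ∀ j i, σ (some (j, i)) = (g (pat t j) i).map fun i' => (j, i')

theorem Used.fy {σ : Perm AA} {t : Finset AA} (h : Used σ t) : Fy σ := by
  have h1 : {j : ℕ | ∃ i, some (j, i) ∈ t}.Finite := by
    refine (t.finite_toSet.image fun x : AA => (x.map Prod.fst).getD 0).subset ?_
    rintro j ⟨i, hi⟩
    exact ⟨_, hi, rfl⟩
  refine (((h1.prod (Set.finite_univ (α := Fin 3))).image some).insert none).subset ?_
  rintro (_ | ⟨j, i⟩) hx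
  · exact Or.inl rfl
  · refine Or.inr ⟨(j, i), ⟨?_, trivial⟩, rfl⟩
    by_contra h2
    apply hx
    rw [h.2.2, g_empty]
    · rfl
    · intro i'
      simp only [pat, decide_eq_false_iff_not]
      exact fun h3 => h2 ⟨i', h3⟩

theorem Used.dec {σ : Perm AA} {t : Finset AA} (h : Used σ t) (j : ℕ) (i : Fin 3) :
    some (j, i) ∈ t ↔ σ (some (j, i)) = some (j, i) ∧ ∃ i', σ (some (j, i')) ≠ some (j, i') := by
  have h1 : ∀ i, σ (some (j, i)) = some (j, i) ↔ g (pat t j) i = some i := fun i => by
    rw [h.2.2]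
    cases g (pat t j) i <;> simp
  have h2 := g_dec (pat t j) i (by
    obtain ⟨i', hi⟩ := h.2.1 j
    exact ⟨i', by simpa [pat] using hi⟩)
  simp only [ne_eq, h1]
  rw [← h2]
  simp [pat]

theorem Used.exists_mem {σ : Perm AA} {t : Finset AA} (h : Used σ t) :
    ∃ j i, some (j, i) ∈ t := by
  by_contra h1
  have h2 : t ⊆ {none} := by
    rintro (_ | ⟨j, i⟩) hx
    · exact Finset.mem_singleton_self _
    · exact absurd ⟨j, i, hx⟩ h1
  have := Finset.card_le_card h2
  rw [h.1] at this
  simp at this

theorem Used.right_unique {σ : Perm AA} {t t' : Finset AA} (h : Used σ t) (h' : Used σ t') :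
    t = t' := by
  have h1 : t.erase none = t'.erase none := by
    ext (_ | ⟨j, i⟩)
    · simp
    · simp only [Finset.mem_erase, ne_eq, reduceCtorEq, not_false_eq_true, true_and]
      rw [h.dec, h'.dec]
  have h2 : none ∈ t ↔ none ∈ t' := by
    have h3 := congrArg Finset.card h1
    rw [Finset.card_erase_eq_ite, Finset.card_erase_eq_ite, h.1, h'.1] at h3
    by_cases a : none ∈ t <;> by_cases b : none ∈ t' <;> simp_all
  ext (_ | x)
  · exact h2
  · have := congrArg (some x ∈ ·) h1
    simpa using this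

theorem Used.left_unique {σ σ' : Perm AA} {t : Finset AA} (h : Used σ t) (h' : Used σ' t) :
    σ = σ' := by
  have h1 : ∀ x, σ (some x) = σ' (some x) := fun ⟨j, i⟩ => by rw [h.2.2, h'.2.2]
  ext1 (_ | x)
  · obtain ⟨y, hy⟩ := σ'.surjective (σ none)
    rcases y with _ | y
    · exact hy.symm
    · rw [← h1] at hy
      cases σ.injective hy
  · exact h1 x

theorem exists_used {t : Finset AA} (h : t.card = 3) (h' : ∀ j, ∃ i, some (j, i) ∉ t) :
    ∃ σ, Used σ t := by
  classical
  have uniq : ∀ c c' : ℕ × Fin 3, g (pat t c.1) c.2 = none → g (pat t c'.1) c'.2 = none →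
      c = c' := by
    rintro ⟨j, i⟩ ⟨j', i'⟩ h1 h2
    by_cases h3 : j = j'
    · subst h3
      exact Prod.ext rfl (g_none_uniq _ _ _ h1 h2)
    · exfalso
      obtain ⟨a1, a2⟩ := g_none _ _ h1
      obtain ⟨b1, b2⟩ := g_none _ _ h2
      simp only [pat, decide_eq_true_eq] at a1 a2 b1 b2
      have h4 : ({some (j, i + 1), some (j, i + 2), some (j', i' + 1), some (j', i' + 2)} :
          Finset AA) ⊆ t := by
        intro x hx
        simp only [Finset.mem_insert, Finset.mem_singleton] at hx
        rcases hx with rfl | rfl | rfl | rfl <;> assumption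
      have h5 := Finset.card_le_card h4
      have h6 : ∀ i : Fin 3, i + 1 ≠ i + 2 := by decide
      rw [Finset.card_insert_of_notMem (by simp [h3, h6]),
        Finset.card_insert_of_notMem (by simp [h3]),
        Finset.card_insert_of_notMem (by simp [h6]), h] at h5
      simp at h5
  let f : AA → AA := fun x => match x with
    | none => if h : ∃ c : ℕ × Fin 3, g (pat t c.1) c.2 = none then some h.choose else none
    | some c => (g (pat t c.1) c.2).map fun i' => (c.1, i')
  have hf : Function.Involutive f := by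
    rintro (_ | ⟨j, i⟩)
    · by_cases h1 : ∃ c : ℕ × Fin 3, g (pat t c.1) c.2 = none
      · simp only [f, dif_pos h1]
        rw [h1.choose_spec]
        rfl
      · simp only [f, dif_neg h1]
    · rcases h1 : g (pat t j) i with _ | i'
      · have h2 : ∃ c : ℕ × Fin 3, g (pat t c.1) c.2 = none := ⟨(j, i), h1⟩
        simp only [f, h1, Option.map_none, dif_pos h2]
        rw [uniq _ (j, i) h2.choose_spec h1]
      · simp only [f, h1, Option.map_some, g_inv _ _ _ h1]
  exact ⟨hf.toPerm, h, h', fun j i => rfl⟩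

/-- Block permutations. -/
def bp (κ : Perm ℕ) (π : ℕ → Perm (Fin 3)) : Perm AA := optionCongr (prodShear κ π)

@[simp] theorem bp_none (κ : Perm ℕ) (π : ℕ → Perm (Fin 3)) : bp κ π none = none := rfl

@[simp] theorem bp_some (κ : Perm ℕ) (π : ℕ → Perm (Fin 3)) (j : ℕ) (i : Fin 3) :
    bp κ π (some (j, i)) = some (κ j, π j i) := rfl

theorem used_conj (κ : Perm ℕ) (π : ℕ → Perm (Fin 3)) (σ : Perm AA) (t : Finset AA) :
    Used (bp κ π * σ * (bp κ π)⁻¹) (t.map (bp κ π).toEmbedding) ↔ Used σ t := by
  have h1 : ∀ j i, some (κ j, π j i) ∈ t.map (bp κ π).toEmbedding ↔ some (j, i) ∈ t :=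
    fun j i => by
      rw [← bp_some]
      exact Finset.mem_map' _
  have h2 : ∀ j, pat (t.map (bp κ π).toEmbedding) (κ j) = fun i => pat t j ((π j).symm i) :=
    fun j => by
      funext i
      obtain ⟨i, rfl⟩ := (π j).surjective i
      simp only [pat, h1, symm_apply_apply]
  unfold Used
  rw [Finset.card_map]
  refine and_congr Iff.rfl (and_congr ?_ ?_)
  · rw [κ.surjective.forall]
    refine forall_congr' fun j => ?_
    rw [(π j).surjective.exists]
    simp only [h1]
  · rw [κ.surjective.forall]
    refine forall_congr' fun j => ?_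
    rw [(π j).surjective.forall]
    refine forall_congr' fun i => ?_
    rw [h2, g_equiv, ← bp_some]
    simp only [Perm.coe_mul, Function.comp_apply, Perm.coe_inv, symm_apply_apply]
    rw [← (bp κ π).injective.eq_iff (a := σ _)]
    cases g (pat t j) i <;> simp

end Pool.Agent.H408Z.Tri
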