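import Pool.Agent.H408Z.Tri.Core
import Pool.Agent.H982Z.Sym.Atoms

/-!
# The model of ZF
-/

set_option autoImplicit false

namespace Pool.Agent.H408Z.Tri

open Equiv Pool.Agent.H164Z.Bspt Pool.Agent.H982Z.Sym

/-- The objects. -/
inductive TT : Type
  | atm (a : AA)
  | up (s t : TT)
  | X
  | gr (σ : {σ : Perm AA // Fy σ})
  | tri (t : Finset AA)
  | S
  | T
  | F

namespace TT

/-- code -/
noncomputable def code (c : {σ : Perm AA // Fy σ} → ℕ) : TT → ℕ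
  | atm a => Nat.pair 0 (Encodable.encode a)
  | up s t => Nat.pair 1 (Nat.pair (s.code c) (t.code c))
  | X => Nat.pair 2 0
  | gr σ => Nat.pair 3 (c σ)
  | tri t => Nat.pair 4 (Encodable.encode t)
  | S => Nat.pair 5 0
  | T => Nat.pair 6 0
  | F => Nat.pair 7 0

theorem code_inj {c : {σ : Perm AA // Fy σ} → ℕ} (hc : Function.Injective c) :
    ∀ s t : TT, s.code c = t.code c → s = t := by
  intro s
  induction s with
  | up s s' ih ih' =>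
    intro t h
    cases t <;> simp [code] at h
    rw [ih _ h.1, ih' _ h.2]
  | gr σ =>
    intro t h
    cases t <;> simp [code] at h
    rw [hc h]
  | _ => intro t h; cases t <;> simp_all [code]

instance : Countable TT := by
  obtain ⟨c, hc⟩ := exists_injective_nat {σ : Perm AA // Fy σ}
  exact Function.Injective.countable (f := code c) fun _ _ => code_inj hc _ _

instance : Nonempty TT := ⟨X⟩

/-- ordered pairs -/
def op (s t : TT) : TT := up (up s s) (up s t)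

/-- membership -/
def mem (R : Perm AA → Finset AA → Prop) (σ : TT) : TT → Prop
  | atm _ => False
  | up s t => σ = s ∨ σ = t
  | X => ∃ a, σ = atm a
  | gr p => ∃ a, σ = op (atm a) (atm (p.1 a))
  | tri t => ∃ a ∈ t, σ = atm a
  | S => ∃ p, σ = gr p
  | T => ∃ t : Finset AA, t.card = 3 ∧ σ = tri t
  | F => ∃ p t, R p.1 t ∧ σ = op (gr p) (tri t)

/-- rank -/
def rk : TT → ℕ
  | atm _ => 0
  | up s t => max s.rk t.rk + 1
  | X => 1
  | gr _ => 3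
  | tri _ => 1
  | S => 4
  | T => 2
  | F => 6

theorem rk_lt {R : Perm AA → Finset AA → Prop} {σ τ : TT} (h : mem R σ τ) : σ.rk < τ.rk := by
  cases τ with
  | atm a => exact h.elim
  | up s t => rcases h with rfl | rfl <;> simp only [rk] <;> omega
  | X => obtain ⟨a, rfl⟩ := h; simp [rk]
  | gr p => obtain ⟨a, rfl⟩ := h; simp [rk, op]
  | tri t => obtain ⟨a, -, rfl⟩ := h; simp [rk]
  | S => obtain ⟨a, rfl⟩ := h; simp [rk]
  | T => obtain ⟨a, -, rfl⟩ := h; simp [rk]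
  | F => obtain ⟨a, b, -, rfl⟩ := h; simp [rk, op]

/-- action -/
def sm (ρ : Perm AA) : TT → TT
  | atm a => atm (ρ a)
  | up s t => up (sm ρ s) (sm ρ t)
  | X => X
  | gr p => gr ⟨ρ * p.1 * ρ⁻¹, p.2.conj ρ⟩
  | tri t => tri (t.map ρ.toEmbedding)
  | S => S
  | T => T
  | F => F

instance (H : Subgroup (Perm AA)) : MulAction H TT where
  smul ρ := sm ρ.1
  one_smul t := by
    change sm 1 t = t
    induction t with
    | up s t ih ih' => simp only [sm, ih, ih']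
    | gr p => simp [sm]
    | tri t => exact congrArg tri Finset.map_refl
    | _ => rfl
  mul_smul ρ σ t := by
    change sm (ρ.1 * σ.1) t = sm ρ.1 (sm σ.1 t)
    induction t with
    | up s t ih ih' => simp only [sm, ih, ih']
    | gr p => simp [sm, mul_assoc]
    | tri t =>
      simp only [sm, Finset.map_map]
      rfl
    | _ => rfl

/-- support -/
noncomputable def sp : TT → Finset AA
  | atm a => {a}
  | up s t => s.sp ∪ t.sp
  | gr p => p.2.toFinset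
  | tri t => t
  | _ => ∅

/-- The fragment. -/
def frag (R : Perm AA → Finset AA → Prop) : Frag (Aut R) TT where
  atm := atm
  mem := mem R
  wf := Subrelation.wf (fun h => rk_lt h) (InvImage.wf rk Nat.lt_wfRel.wf)
  inj := fun _ _ h => atm.inj h
  sm_atm := fun _ _ => rfl
  sm_mem := fun ρ σ τ h => by
    change mem R (sm ρ.1 σ) (sm ρ.1 τ)
    cases τ with
    | atm a => exact h.elim
    | up s t => exact h.imp (congrArg (sm ρ.1)) (congrArg (sm ρ.1))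
    | X => obtain ⟨a, rfl⟩ := h; exact ⟨_, rfl⟩
    | gr p => obtain ⟨a, rfl⟩ := h; exact ⟨ρ.1 a, by simp [sm, op]⟩
    | tri t => obtain ⟨a, h, rfl⟩ := h; exact ⟨_, (Finset.mem_map' _).2 h, rfl⟩
    | S => obtain ⟨a, rfl⟩ := h; exact ⟨_, rfl⟩
    | T => obtain ⟨a, h, rfl⟩ := h; exact ⟨_, by rw [Finset.card_map, h], rfl⟩
    | F => obtain ⟨a, b, h, rfl⟩ := h; exact ⟨⟨_, a.2.conj ρ.1⟩, _, (ρ.2 _ _).2 h, rfl⟩
  supp := fun τ => ⟨τ.sp, fun ρ h => by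
    change sm ρ.1 τ = τ
    induction τ with
    | atm a => simp only [sm]; rw [h a (Finset.mem_singleton_self a)]
    | up s t ih ih' =>
      simp only [sm]
      rw [ih fun a ha => h a (Finset.mem_union_left _ ha),
        ih' fun a ha => h a (Finset.mem_union_right _ ha)]
    | gr p =>
      simp only [sm]
      refine congrArg gr (Subtype.ext ?_)
      change ρ.1 * p.1 * ρ.1⁻¹ = p.1
      rw [conj_congr (ρ' := 1) fun x hx => h x (by simpa [sp] using hx)]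
      simp
    | tri t =>
      simp only [sm]
      refine congrArg tri (Finset.eq_of_subset_of_card_le (fun x hx => ?_) (by simp))
      obtain ⟨y, hy, rfl⟩ := Finset.mem_map.1 hx
      have : ρ.1 y = y := h y hy
      simpa [this] using hy
    | _ => rfl⟩

end TT

/-- `y` has exactly three elements. -/
def IsTriple {M : Type} (E : M → M → Prop) (y : M) : Prop :=
  ∃ p q r, p ≠ q ∧ p ≠ r ∧ q ≠ r ∧ ∀ z, E z y ↔ z = p ∨ z = q ∨ z = r

theorem main : ∃ (M : Type) (E : M → M → Prop), IsZF E ∧ ∃ a s t f : M,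
    (∀ u, E u s ↔ IsBij E u a a) ∧ (∀ y, E y t ↔ Sub E y a ∧ IsTriple E y) ∧ IsBij E f s t := by
  classical
  obtain ⟨R, r1, r2, r3, r4⟩ := core
  obtain ⟨N, S, val, -, h1, -, h2, h3⟩ := (TT.frag R).exists_model
  have hup : ∀ s t x, S.E x (val (.up s t)) ↔ x = val s ∨ x = val t := fun s t x => by
    rw [h2 _ (fun a h => by cases h)]
    constructor
    · rintro ⟨σ, rfl | rfl, rfl⟩
      · exact Or.inl rfl
      · exact Or.inr rfl
    · rintro (rfl | rfl)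
      · exact ⟨s, Or.inl rfl, rfl⟩
      · exact ⟨t, Or.inr rfl, rfl⟩
  have hop : ∀ s t, IsOP S.E (val (TT.op s t)) (val s) (val t) := fun s t x => by
    rw [TT.op, hup]
    refine or_congr ⟨?_, fun h => ?_⟩ ⟨?_, fun h => ?_⟩
    · rintro rfl z; rw [hup, or_self]
    · exact S.zf.ext _ _ fun z => by rw [h, hup, or_self]
    · rintro rfl z; rw [hup]
    · exact S.zf.ext _ _ fun z => by rw [h, hup]
  have hrel : ∀ Y s t, Rel S.E Y (val s) (val t) ↔ S.E (val (TT.op s t)) Y := fun Y s t =>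
    ⟨fun ⟨p, h4, h5⟩ => S.op_unique h5 (hop s t) ▸ h4, fun h => ⟨_, h, hop s t⟩⟩
  have hinj : ∀ a b, val (.atm a) = val (.atm b) → a = b := h1
  have hX : ∀ x, S.E x (val .X) ↔ ∃ a, x = val (.atm a) := fun x => by
    rw [h2 _ (fun a h => by cases h)]
    exact ⟨fun ⟨_, ⟨a, rfl⟩, h⟩ => ⟨a, h⟩, fun ⟨a, h⟩ => ⟨_, ⟨a, rfl⟩, h⟩⟩
  have hgr : ∀ p x, S.E x (val (.gr p)) ↔ ∃ a, x = val (TT.op (.atm a) (.atm (p.1 a))) :=
    fun p x => by
      rw [h2 _ (fun a h => by cases h)]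
      exact ⟨fun ⟨_, ⟨a, rfl⟩, h⟩ => ⟨a, h⟩, fun ⟨a, h⟩ => ⟨_, ⟨a, rfl⟩, h⟩⟩
  have htri : ∀ t x, S.E x (val (.tri t)) ↔ ∃ a ∈ t, x = val (.atm a) := fun t x => by
    rw [h2 _ (fun a h => by cases h)]
    exact ⟨fun ⟨_, ⟨a, ha, rfl⟩, h⟩ => ⟨a, ha, h⟩, fun ⟨a, ha, h⟩ => ⟨_, ⟨a, ha, rfl⟩, h⟩⟩
  have hS : ∀ x, S.E x (val .S) ↔ ∃ p, x = val (.gr p) := fun x => by
    rw [h2 _ (fun a h => by cases h)]
    exact ⟨fun ⟨_, ⟨a, rfl⟩, h⟩ => ⟨a, h⟩, fun ⟨a, h⟩ => ⟨_, ⟨a, rfl⟩, h⟩⟩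
  have hT : ∀ x, S.E x (val .T) ↔ ∃ t : Finset AA, t.card = 3 ∧ x = val (.tri t) := fun x => by
    rw [h2 _ (fun a h => by cases h)]
    exact ⟨fun ⟨_, ⟨a, ha, rfl⟩, h⟩ => ⟨a, ha, h⟩, fun ⟨a, ha, h⟩ => ⟨_, ⟨a, ha, rfl⟩, h⟩⟩
  have hF : ∀ x, S.E x (val .F) ↔ ∃ p t, R p.1 t ∧ x = val (TT.op (.gr p) (.tri t)) := fun x => by
    rw [h2 _ (fun a h => by cases h)]
    exact ⟨fun ⟨_, ⟨a, b, ha, rfl⟩, h⟩ => ⟨a, b, ha, h⟩,
      fun ⟨a, b, ha, h⟩ => ⟨_, ⟨a, b, ha, rfl⟩, h⟩⟩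
  have rgr : ∀ p x y, Rel S.E (val (.gr p)) x y ↔
      ∃ a, x = val (.atm a) ∧ y = val (.atm (p.1 a)) := fun p x y => by
    constructor
    · rintro ⟨z, h4, h5⟩
      obtain ⟨a, rfl⟩ := (hgr p z).1 h4
      exact ⟨a, S.op_inj h5 (hop _ _)⟩
    · rintro ⟨a, rfl, rfl⟩
      exact ⟨_, (hgr _ _).2 ⟨a, rfl⟩, hop _ _⟩
  have rF : ∀ x y, Rel S.E (val .F) x y ↔
      ∃ p t, R p.1 t ∧ x = val (.gr p) ∧ y = val (.tri t) := fun x y => by
    constructor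
    · rintro ⟨z, h4, h5⟩
      obtain ⟨p, t, h6, rfl⟩ := (hF z).1 h4
      exact ⟨p, t, h6, S.op_inj h5 (hop _ _)⟩
    · rintro ⟨p, t, h6, rfl, rfl⟩
      exact ⟨_, (hF _).2 ⟨p, t, h6, rfl⟩, hop _ _⟩
  have igr : ∀ p q, val (.gr p) = val (.gr q) → p = q := fun p q h => by
    refine Subtype.ext (Equiv.ext fun a => ?_)
    have h4 := (rgr p _ _).2 ⟨a, rfl, rfl⟩
    rw [h, rgr] at h4
    obtain ⟨b, h5, h6⟩ := h4
    rw [hinj _ _ h6, hinj _ _ h5]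
  have itri : ∀ t u, val (.tri t) = val (.tri u) → t = u := by
    have : ∀ t u, val (.tri t) = val (.tri u) → t ⊆ u := fun t u h a ha => by
      have h4 := (htri t _).2 ⟨a, ha, rfl⟩
      rw [h, htri] at h4
      obtain ⟨b, h5, h6⟩ := h4
      rwa [hinj _ _ h6]
    exact fun t u h => Finset.Subset.antisymm (this t u h) (this u t h.symm)
  refine ⟨N, S.E, S.zf, val .X, val .S, val .T, val .F, fun u => ⟨?_, ?_⟩, fun y => ⟨?_, ?_⟩,
    ?_, ?_, ?_⟩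
  · rw [hS]
    rintro ⟨p, rfl⟩
    refine ⟨fun z hz => ?_, fun l hl => ?_, fun y hy => ?_⟩
    · obtain ⟨a, rfl⟩ := (hgr p z).1 hz
      exact ⟨_, _, (hX _).2 ⟨_, rfl⟩, (hX _).2 ⟨_, rfl⟩, hop _ _⟩
    · obtain ⟨a, rfl⟩ := (hX l).1 hl
      refine ⟨_, (rgr p _ _).2 ⟨a, rfl, rfl⟩, fun y hy => ?_⟩
      obtain ⟨b, h4, rfl⟩ := (rgr p _ _).1 hy
      rw [hinj _ _ h4]
    · obtain ⟨a, rfl⟩ := (hX y).1 hy
      obtain ⟨b, rfl⟩ := p.1.surjective a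
      refine ⟨_, (rgr p _ _).2 ⟨b, rfl, rfl⟩, fun y hy => ?_⟩
      obtain ⟨c, rfl, h4⟩ := (rgr p _ _).1 hy
      rw [p.1.injective (hinj _ _ h4)]
  · rintro ⟨b1, b2, b3⟩
    have h4 : ∀ a, ∃ b, Rel S.E u (val (.atm a)) (val (.atm b)) := fun a => by
      obtain ⟨y, ⟨z, h5, h6⟩, -⟩ := b2 _ ((hX _).2 ⟨a, rfl⟩)
      obtain ⟨l, y', -, h7, h8⟩ := b1 z h5
      obtain ⟨b, rfl⟩ := (hX _).1 h7
      obtain ⟨-, rfl⟩ := S.op_inj h6 h8
      exact ⟨b, z, h5, h6⟩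
    choose φ hφ using h4
    have h5 : ∀ a b, Rel S.E u (val (.atm a)) (val (.atm b)) → b = φ a := fun a b h =>
      hinj _ _ ((b2 _ ((hX _).2 ⟨a, rfl⟩)).unique h (hφ a))
    have h6 : Function.Bijective φ := by
      refine ⟨fun a b h => ?_, fun b => ?_⟩
      · exact hinj _ _ ((b3 _ ((hX _).2 ⟨φ a, rfl⟩)).unique (hφ a) (h ▸ hφ b))
      · obtain ⟨y, ⟨z, h5', h6⟩, -⟩ := b3 _ ((hX _).2 ⟨b, rfl⟩)
        obtain ⟨l, y', h7, -, h8⟩ := b1 z h5'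
        obtain ⟨a, rfl⟩ := (hX _).1 h7
        obtain ⟨rfl, -⟩ := S.op_inj h6 h8
        exact ⟨a, (h5 a b ⟨z, h5', h6⟩).symm⟩
    obtain ⟨E, hE⟩ := h3 u
    have h7 : Fy (Equiv.ofBijective φ h6) := r4 E _ fun ρ hρ h x => by
      have h8 := hE ⟨ρ, hρ⟩ h _ ((hrel _ _ _).1 (hφ x))
      exact (h5 (ρ x) (ρ (φ x)) ((hrel _ _ _).2 h8)).symm
    refine (hS _).2 ⟨⟨_, h7⟩, S.zf.ext _ _ fun z => ?_⟩
    rw [hgr]
    constructor
    · intro hz
      obtain ⟨l, y, a1, a2, a3⟩ := b1 z hz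
      obtain ⟨a, rfl⟩ := (hX _).1 a1
      obtain ⟨b, rfl⟩ := (hX _).1 a2
      obtain rfl := h5 a b ⟨z, hz, a3⟩
      exact ⟨a, S.op_unique a3 (hop _ _)⟩
    · rintro ⟨a, rfl⟩
      exact (hrel _ _ _).1 (hφ a)
  · rw [hT]
    rintro ⟨t, ht, rfl⟩
    refine ⟨fun z hz => ?_, ?_⟩
    · obtain ⟨a, -, rfl⟩ := (htri _ _).1 hz
      exact (hX _).2 ⟨a, rfl⟩
    · obtain ⟨p, q, r, a1, a2, a3, rfl⟩ := Finset.card_eq_three.1 ht
      refine ⟨val (.atm p), val (.atm q), val (.atm r), fun h => a1 (hinj _ _ h),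
        fun h => a2 (hinj _ _ h), fun h => a3 (hinj _ _ h), fun z => ?_⟩
      rw [htri]
      simp
  · rintro ⟨h4, p, q, r, a1, a2, a3, h5⟩
    obtain ⟨p, rfl⟩ := (hX p).1 (h4 _ ((h5 _).2 (Or.inl rfl)))
    obtain ⟨q, rfl⟩ := (hX q).1 (h4 _ ((h5 _).2 (Or.inr (Or.inl rfl))))
    obtain ⟨r, rfl⟩ := (hX r).1 (h4 _ ((h5 _).2 (Or.inr (Or.inr rfl))))
    refine (hT _).2 ⟨{p, q, r}, Finset.card_eq_three.2 ⟨p, q, r, fun h => a1 (by rw [h]),
      fun h => a2 (by rw [h]), fun h => a3 (by rw [h]), rfl⟩, S.zf.ext _ _ fun z => ?_⟩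
    rw [h5, htri]
    simp
  · intro z hz
    obtain ⟨p, t, h4, rfl⟩ := (hF z).1 hz
    exact ⟨_, _, (hS _).2 ⟨p, rfl⟩, (hT _).2 ⟨t, (r1 _ _ h4).2, rfl⟩, hop _ _⟩
  · intro l hl
    obtain ⟨p, rfl⟩ := (hS l).1 hl
    obtain ⟨t, h4, h5⟩ := r2 p.1 p.2
    refine ⟨_, (rF _ _).2 ⟨p, t, h4, rfl, rfl⟩, fun y hy => ?_⟩
    obtain ⟨q, t', h6, h7, rfl⟩ := (rF _ _).1 hy
    obtain rfl := igr _ _ h7
    rw [h5 t' h6]
  · intro y hy
    obtain ⟨t, ht, rfl⟩ := (hT y).1 hy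
    obtain ⟨p, h4, h5⟩ := r3 t ht
    refine ⟨_, (rF _ _).2 ⟨⟨p, (r1 _ _ h4).1⟩, t, h4, rfl, rfl⟩, fun y hy => ?_⟩
    obtain ⟨q, t', h6, rfl, h7⟩ := (rF _ _).1 hy
    obtain rfl := itri _ _ h7
    obtain rfl := h5 q.1 h6
    rfl

end Pool.Agent.H408Z.Tri
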